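import Pool.Agent.Helper34.SD.Defs

/-!
# Project SD, module E2: growing sections
-/

set_option autoImplicit false

namespace Pool.Agent.Helper71.SD

open Pool.Agent.Helper34.SD Pool.Agent.Helper34.PT

private theorem secs_append (v : List (Fin 3)) : ∀ U W : List Bool,
    secs (U ++ W) v = secs U v ++ secs W (act v U) := by
  induction v with
  | nil => intro U W; rfl
  | cons s v ih =>
    intro U W
    simp only [secs, act, sec_append, ih]

private theorem secs_comp (v v' : List (Fin 3)) : ∀ W : List Bool,
    secs W (v ++ v') = secs (secs W v) v' := by
  induction v with
  | nil => intro W; rfl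
  | cons s v ih =>
    intro W
    simp only [List.cons_append, secs, ih]

/-- the profile -/
private def v1 : List (Fin 3) := [0, 1, 1, 1, 1]

private def z1 : List (Fin 3) := [0, 1, 2, 0, 1]

private def X : List Bool :=
  [true, true, true, false, false, false, true, true, true, false, false, false, false, false,
    true, true, true, false]

private def Q : List Bool := [false, false, true, true, true, false]

private theorem a1 : secs [true] (v1 ++ v1 ++ v1) = X := by decide +kernel

private theorem a2 : secs X v1 = X ++ Q := by decide +kernel

private theorem a3 : act v1 X = z1 := by decide +kernel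

private theorem a4 : secs Q z1 = Q := by decide +kernel

private theorem a5 : act z1 Q = z1 := by decide +kernel

private theorem secs_rep (n : ℕ) : secs (rep n Q) z1 = rep n Q := by
  induction n with
  | zero =>
    have : rep 0 Q = [] := rfl
    rw [this]
    rfl
  | succ n ih =>
    have : rep (n + 1) Q = Q ++ rep n Q := rfl
    rw [this, secs_append, a4, a5, ih]

/-- powers of the profile -/
private def vp : ℕ → List (Fin 3)
  | 0 => v1 ++ v1 ++ v1
  | n + 1 => vp n ++ v1

private theorem secs_vp (n : ℕ) : secs [true] (vp n) = X ++ rep n Q := by
  induction n with
  | zero =>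
    have : rep 0 Q = [] := rfl
    rw [this, List.append_nil]
    exact a1
  | succ n ih =>
    have h : rep (n + 1) Q = Q ++ rep n Q := rfl
    have h' : vp (n + 1) = vp n ++ v1 := rfl
    rw [h', secs_comp, ih, secs_append, a2, a3, secs_rep, h, List.append_assoc]

private theorem count_rep (n : ℕ) : (rep n Q).count true = 3 * n := by
  induction n with
  | zero => rfl
  | succ n ih =>
    have h : rep (n + 1) Q = Q ++ rep n Q := rfl
    have hq : Q.count true = 3 := by decide +kernel
    rw [h, List.count_append, ih, hq]
    omega

/-- Module E2 -/
theorem hE2 : Stmt_E2 := by
  intro K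
  refine ⟨vp K, ?_⟩
  rw [secs_vp, List.count_append, count_rep]
  omega

end Pool.Agent.Helper71.SD
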